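import Pool.Agent.Helper23.UBic

/-!
# U16: factors of type III_1
-/

open scoped InnerProductSpace Topology
open ContinuousLinearMap Filter

namespace Pool.Agent.Helper23

universe u

variable {H : Type u} [NormedAddCommGroup H] [InnerProductSpace ℂ H] [CompleteSpace H]
  {N : VonNeumannAlgebra H} {ξ : H}

/-- Type III₁ in the form of Connes and Størmer: `N` is properly infinite, and any two normal
states of `N` (given here by pairs of vectors) are approximately unitarily equivalent. -/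
def TypeIIIOne (N : VonNeumannAlgebra H) : Prop :=
  (∃ v ∈ N, ∃ w ∈ N, star v * v = 1 ∧ star w * w = 1 ∧ star v * w = 0) ∧
  ∀ η η' ζ ζ' : H, ‖η‖ ^ 2 + ‖η'‖ ^ 2 = 1 → ‖ζ‖ ^ 2 + ‖ζ'‖ ^ 2 = 1 → ∀ ε : ℝ, 0 < ε →
    ∃ u ∈ N, star u * u = 1 ∧ u * star u = 1 ∧ ∀ x ∈ N,
      ‖⟪u η, x (u η)⟫_ℂ + ⟪u η', x (u η')⟫_ℂ - (⟪ζ, x ζ⟫_ℂ + ⟪ζ', x ζ'⟫_ℂ)‖ ≤ ε * ‖x‖

theorem inner_star_mul_self (p : H →L[ℂ] H) (ξ : H) :
    ⟪ξ, (star p * p) ξ⟫_ℂ = ((‖p ξ‖ ^ 2 : ℝ) : ℂ) := by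
  have a1 : ⟪ξ, (star p * p) ξ⟫_ℂ = ⟪p ξ, p ξ⟫_ℂ := by
    rw [ContinuousLinearMap.star_eq_adjoint]
    exact ContinuousLinearMap.adjoint_inner_right p ξ (p ξ)
  rw [a1, inner_self_eq_norm_sq_to_K]
  norm_cast

theorem inner_conj_aux (p q x : H →L[ℂ] H) (c : ℝ) (ξ : H) :
    ⟪p ((c : ℂ) • q ξ), x (p ((c : ℂ) • q ξ))⟫_ℂ =
      ((c ^ 2 : ℝ) : ℂ) * ⟪ξ, (star (p * q) * x * (p * q)) ξ⟫_ℂ := by
  have h : ⟪ξ, (star (p * q) * x * (p * q)) ξ⟫_ℂ = ⟪p (q ξ), x (p (q ξ))⟫_ℂ := by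
    rw [ContinuousLinearMap.star_eq_adjoint]
    exact ContinuousLinearMap.adjoint_inner_right (p * q) ξ (x ((p * q) ξ))
  rw [h]
  simp only [map_smul, inner_smul_left, inner_smul_right, Complex.conj_ofReal]
  push_cast
  ring

theorem norm_isom_apply {p : H →L[ℂ] H} (hp : star p * p = 1) (x : H) : ‖p x‖ = ‖x‖ := by
  have h := inner_star_mul_self p x
  rw [hp] at h
  have h1 : ⟪x, (1 : H →L[ℂ] H) x⟫_ℂ = ((‖x‖ ^ 2 : ℝ) : ℂ) := by
    have : (1 : H →L[ℂ] H) x = x := rfl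
    rw [this, inner_self_eq_norm_sq_to_K]
    norm_cast
  rw [h1] at h
  have h2 : ‖p x‖ ^ 2 = ‖x‖ ^ 2 := by exact_mod_cast h.symm
  exact (pow_left_inj₀ (norm_nonneg _) (norm_nonneg _) two_ne_zero).1 h2

section algebra

variable {A : Type*} [Ring A] [StarRing A] {u v w : A}

theorem iii_e1 (hu : star u * u = 1) (hwv : star w * v = 0) (z : A) :
    star (u * v) * (z * (u * (v * star w) * star u)) * (u * v) = 0 := by
  have : star (u * v) * (z * (u * (v * star w) * star u)) * (u * v) =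
      star (u * v) * z * u * v * (star w * ((star u * u) * v)) := by noncomm_ring
  rw [this, hu, one_mul, hwv, mul_zero]

theorem iii_e2 (hu : star u * u = 1) (hww : star w * w = 1) (z : A) :
    star (u * w) * (z * (u * (v * star w) * star u)) * (u * w) =
      star w * (star u * (z * (u * v))) := by
  have : star (u * w) * (z * (u * (v * star w) * star u)) * (u * w) =
      star (u * w) * z * u * v * (star w * ((star u * u) * w)) := by noncomm_ring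
  rw [this, hu, one_mul, hww, mul_one, star_mul]
  noncomm_ring

theorem iii_e3 (hu : star u * u = 1) (hvv : star v * v = 1) (z : A) :
    star (u * v) * ((u * (v * star w) * star u) * z) * (u * v) =
      star w * (star u * (z * (u * v))) := by
  have : star (u * v) * ((u * (v * star w) * star u) * z) * (u * v) =
      star v * (star u * u) * v * (star w * (star u * (z * (u * v)))) := by
    rw [star_mul]; noncomm_ring
  rw [this, hu, mul_one, hvv, one_mul]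

theorem iii_e4 (hu : star u * u = 1) (hwv : star w * v = 0) (z : A) :
    star (u * w) * ((u * (v * star w) * star u) * z) * (u * w) = 0 := by
  have : star (u * w) * ((u * (v * star w) * star u) * z) * (u * w) =
      star w * (star u * u) * v * (star w * (star u * (z * (u * w)))) := by
    rw [star_mul]; noncomm_ring
  rw [this, hu, mul_one, hwv, zero_mul]

theorem iii_ss (hu : star u * u = 1) (hvv : star v * v = 1) :
    star (u * (v * star w) * star u) * (u * (v * star w) * star u) =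
      u * w * (star w * star u) := by
  have : star (u * (v * star w) * star u) * (u * (v * star w) * star u) =
      u * w * (star v * ((star u * u) * v)) * (star w * star u) := by
    simp only [star_mul, star_star]; noncomm_ring
  rw [this, hu, one_mul, hvv, mul_one]

theorem iii_e5 (hu : star u * u = 1) (hwv : star w * v = 0) :
    star (u * v) * (u * w * (star w * star u)) * (u * v) = 0 := by
  have : star (u * v) * (u * w * (star w * star u)) * (u * v) =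
      star (u * v) * u * w * (star w * ((star u * u) * v)) := by noncomm_ring
  rw [this, hu, one_mul, hwv, mul_zero]

theorem iii_e6 (hu : star u * u = 1) (hww : star w * w = 1) :
    star (u * w) * (u * w * (star w * star u)) * (u * w) = 1 := by
  have : star (u * w) * (u * w * (star w * star u)) * (u * w) =
      (star w * (star u * u) * w) * (star w * ((star u * u) * w)) := by
    rw [star_mul]; noncomm_ring
  rw [this, hu, one_mul, mul_one, hww, one_mul]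

end algebra

theorem iii_step (hξ : ‖ξ‖ = 1) {l : ℝ} (hl : 0 < l) {α β ε : ℝ} (hα : α ^ 2 = 1 / (1 + l))
    (hβ : β ^ 2 = l / (1 + l)) (hε : 0 ≤ ε) {u v w : H →L[ℂ] H} (hu : u ∈ N) (hv : v ∈ N)
    (hw : w ∈ N) (hu1 : star u * u = 1) (hvv : star v * v = 1) (hww : star w * w = 1)
    (hwv : star w * v = 0)
    (h : ∀ x ∈ N, ‖((α ^ 2 : ℝ) : ℂ) * ⟪ξ, (star (u * v) * x * (u * v)) ξ⟫_ℂ +
        ((β ^ 2 : ℝ) : ℂ) * ⟪ξ, (star (u * w) * x * (u * w)) ξ⟫_ℂ - ⟪ξ, x ξ⟫_ℂ‖ ≤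
        ε * ‖x‖) :
    ∃ a ∈ N, ‖a‖ ≤ 1 ∧ Defect N ξ l ((1 + l) * ε) a ∧ l / (1 + l) ≤ ‖a ξ‖ ^ 2 + ε := by
  have haN : u * (v * star w) * star u ∈ N :=
    mul_mem (mul_mem hu (mul_mem hv (star_mem hw))) (star_mem hu)
  have hna : ‖u * (v * star w) * star u‖ ≤ 1 := by
    have hnu : ‖u‖ ≤ 1 := norm_le_one_of_isom hu1
    have hnv : ‖v‖ ≤ 1 := norm_le_one_of_isom hvv
    have hnw : ‖w‖ ≤ 1 := norm_le_one_of_isom hww
    have h1 : ‖v * star w‖ ≤ 1 := (norm_mul_le _ _).trans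
      (mul_le_one₀ hnv (norm_nonneg _) (by rw [norm_star]; exact hnw))
    have h2 : ‖u * (v * star w)‖ ≤ 1 :=
      (norm_mul_le _ _).trans (mul_le_one₀ hnu (norm_nonneg _) h1)
    exact (norm_mul_le _ _).trans (mul_le_one₀ h2 (norm_nonneg _) (by rw [norm_star]; exact hnu))
  have hE1 := fun z => iii_e1 (A := H →L[ℂ] H) hu1 hwv z
  have hE2 := fun z => iii_e2 (A := H →L[ℂ] H) (v := v) hu1 hww z
  have hE3 := fun z => iii_e3 (A := H →L[ℂ] H) (w := w) hu1 hvv z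
  have hE4 := fun z => iii_e4 (A := H →L[ℂ] H) hu1 hwv z
  have hss := iii_ss (A := H →L[ℂ] H) (w := w) hu1 hvv
  have hE5 := iii_e5 (A := H →L[ℂ] H) hu1 hwv
  have hE6 := iii_e6 (A := H →L[ℂ] H) hu1 hww
  generalize u * (v * star w) * star u = a at *
  have hl1 : (l : ℂ) * ((α ^ 2 : ℝ) : ℂ) = ((β ^ 2 : ℝ) : ℂ) := by
    rw [hα, hβ, ← Complex.ofReal_mul]
    congr 1
    field_simp
  refine ⟨a, haN, hna, ?_, ?_⟩
  · intro z hz
    have h2 := h (z * a) (mul_mem hz haN)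
    have h3 := h (a * z) (mul_mem haN hz)
    rw [hE1, hE2] at h2
    rw [hE3, hE4] at h3
    generalize hB : ⟪ξ, (star w * (star u * (z * (u * v)))) ξ⟫_ℂ = B at h2 h3
    have hz0 : ⟪ξ, (0 : H →L[ℂ] H) ξ⟫_ℂ = 0 := inner_zero_right ξ
    rw [hz0, mul_zero, zero_add] at h2
    rw [hz0, mul_zero, add_zero] at h3
    have a1 : (z * a) ξ = z (a ξ) := rfl
    have a2 : (a * z) ξ = a (z ξ) := rfl
    rw [a1] at h2
    rw [a2] at h3
    have h4 : ‖z * a‖ ≤ ‖z‖ := by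
      refine (norm_mul_le _ _).trans ?_
      have := mul_le_mul_of_nonneg_left hna (norm_nonneg z)
      rwa [mul_one] at this
    have h5 : ‖a * z‖ ≤ ‖z‖ := by
      refine (norm_mul_le _ _).trans ?_
      have := mul_le_mul_of_nonneg_right hna (norm_nonneg z)
      rwa [one_mul] at this
    have e5 : ⟪ξ, z (a ξ)⟫_ℂ - l * ⟪ξ, a (z ξ)⟫_ℂ =
        -(((β ^ 2 : ℝ) : ℂ) * B - ⟪ξ, z (a ξ)⟫_ℂ) +
        (l : ℂ) * (((α ^ 2 : ℝ) : ℂ) * B - ⟪ξ, a (z ξ)⟫_ℂ) := by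
      rw [← hl1]
      ring
    rw [e5]
    calc _ ≤ ‖-(((β ^ 2 : ℝ) : ℂ) * B - ⟪ξ, z (a ξ)⟫_ℂ)‖ +
          ‖(l : ℂ) * (((α ^ 2 : ℝ) : ℂ) * B - ⟪ξ, a (z ξ)⟫_ℂ)‖ := norm_add_le _ _
      _ = ‖((β ^ 2 : ℝ) : ℂ) * B - ⟪ξ, z (a ξ)⟫_ℂ‖ +
          l * ‖((α ^ 2 : ℝ) : ℂ) * B - ⟪ξ, a (z ξ)⟫_ℂ‖ := by
            rw [norm_neg, norm_mul, Complex.norm_real, Real.norm_eq_abs, abs_of_pos hl]
      _ ≤ ε * ‖z * a‖ + l * (ε * ‖a * z‖) := by gcongr
      _ ≤ ε * ‖z‖ + l * (ε * ‖z‖) := by gcongr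
      _ = (1 + l) * ε * ‖z‖ := by ring
  · have h2 := h (star a * a) (mul_mem (star_mem haN) haN)
    have e3 := inner_star_mul_self a ξ
    have e4 : ⟪ξ, (1 : H →L[ℂ] H) ξ⟫_ℂ = 1 := by
      have : (1 : H →L[ℂ] H) ξ = ξ := rfl
      rw [this, inner_self_eq_norm_sq_to_K, hξ]
      norm_num
    have h4 : ‖star a * a‖ ≤ 1 :=
      (norm_mul_le _ _).trans (mul_le_one₀ (by rw [norm_star]; exact hna)
        (norm_nonneg _) hna)
    have hz0 : ⟪ξ, (0 : H →L[ℂ] H) ξ⟫_ℂ = 0 := inner_zero_right ξ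
    rw [e3, hss, hE5, hE6, e4, hz0, mul_zero, zero_add, mul_one,
      ← Complex.ofReal_sub, Complex.norm_real, Real.norm_eq_abs, hβ, ← hss] at h2
    have h5 := (abs_le.1 h2).2
    have h6 := mul_le_mul_of_nonneg_left h4 hε
    linarith

theorem TypeIIIOne.exists_lamSeq (hN : TypeIIIOne N) (hξ : ‖ξ‖ = 1) {l : ℝ} (hl : 0 < l) :
    ∃ a, LamSeq N ξ l a ∧ ¬ Tendsto (fun n => a n ξ) atTop (𝓝 0) := by
  obtain ⟨⟨v, hv, w, hw, hvv, hww, hvw⟩, hst⟩ := hN
  have hwv : star w * v = 0 := by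
    have := congrArg star hvw
    rwa [star_mul, star_star, star_zero] at this
  obtain ⟨α, hα⟩ : ∃ α : ℝ, α ^ 2 = 1 / (1 + l) := ⟨Real.sqrt (1 / (1 + l)),
    Real.sq_sqrt (by positivity)⟩
  obtain ⟨β, hβ⟩ : ∃ β : ℝ, β ^ 2 = l / (1 + l) := ⟨Real.sqrt (l / (1 + l)),
    Real.sq_sqrt (by positivity)⟩
  have hnorm : ‖(α : ℂ) • v ξ‖ ^ 2 + ‖(β : ℂ) • w ξ‖ ^ 2 = 1 := by
    rw [norm_smul, norm_smul, norm_isom_apply hvv, norm_isom_apply hww, hξ, Complex.norm_real,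
      Complex.norm_real, mul_one, mul_one, Real.norm_eq_abs, Real.norm_eq_abs, sq_abs, sq_abs,
      hα, hβ]
    field_simp
  have hζ : ‖ξ‖ ^ 2 + ‖(0 : H)‖ ^ 2 = 1 := by rw [hξ, norm_zero]; norm_num
  have hex : ∀ n : ℕ, ∃ a ∈ N, ‖a‖ ≤ 1 ∧ Defect N ξ l ((1 + l) * (1 / ((n : ℝ) + 1))) a ∧
      l / (1 + l) ≤ ‖a ξ‖ ^ 2 + 1 / ((n : ℝ) + 1) := by
    intro n
    obtain ⟨u, hu, h1, -, h3⟩ := hst _ _ ξ 0 hnorm hζ (1 / ((n : ℝ) + 1)) (by positivity)
    refine iii_step hξ hl hα hβ (by positivity) hu hv hw h1 hvv hww hwv fun x hx => ?_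
    have h4 := h3 x hx
    rw [inner_conj_aux, inner_conj_aux, inner_zero_left, add_zero] at h4
    exact h4
  choose a haN hna haD hal using hex
  refine ⟨a, ⟨haN, ⟨1, hna⟩, ?_⟩, ?_⟩
  · intro ε hε
    have h1 : ∀ᶠ n : ℕ in atTop, (1 + l) * (1 / ((n : ℝ) + 1)) < ε := by
      have h2 := (tendsto_one_div_add_atTop_nhds_zero_nat (𝕜 := ℝ)).const_mul (1 + l)
      rw [mul_zero] at h2
      exact h2.eventually (gt_mem_nhds hε)
    exact h1.mono fun n hn => (haD n).mono hn.le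
  · intro hT
    have h2 : Tendsto (fun n : ℕ => ‖a n ξ‖ ^ 2 + 1 / ((n : ℝ) + 1)) atTop
        (𝓝 (‖(0 : H)‖ ^ 2 + 0)) :=
      (hT.norm.pow 2).add (tendsto_one_div_add_atTop_nhds_zero_nat (𝕜 := ℝ))
    have h3 := ge_of_tendsto' h2 hal
    rw [norm_zero] at h3
    have h4 : 0 < l / (1 + l) := by positivity
    norm_num at h3
    linarith

end Pool.Agent.Helper23
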