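import Pool.Agent.Helper23.UBic
import Pool.Agent.Helper4.PU.U2
import Pool.Agent.Helper95.UAvg
import Pool.Agent.Helper72.UPow.Near

/-!
# U9: exact eigenoperators in the ultrapower; U16: type III_1
-/

open scoped InnerProductSpace Topology BoundedContinuousFunction
open ContinuousLinearMap Filter

namespace Pool.Agent.Helper23

universe u

variable {H : Type u} [NormedAddCommGroup H] [InnerProductSpace ℂ H] [CompleteSpace H]
variable {K : Type u} [NormedAddCommGroup K] [InnerProductSpace ℂ K] [CompleteSpace K]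
variable {M N : VonNeumannAlgebra H} {ξ : H} {E : (H →L[ℂ] H) → (H →L[ℂ] H)}

/-! ### elementary facts on `AppS` -/

theorem AppS_one : (fun _ => (1 : H →L[ℂ] H)) ∈ AppS M ξ := by
  have h : (fun _ : ℕ => (1 : H →L[ℂ] H)) ∈ AppR M ξ := by
    have := AppR_scalar (M := M) (ξ := ξ) (c := fun _ => (1 : ℂ)) ⟨1, fun n => by simp⟩
    simpa using this
  refine ⟨h, ?_⟩
  simpa using h

theorem AppS_mul {x y : ℕ → H →L[ℂ] H} (hx : x ∈ AppS M ξ) (hy : y ∈ AppS M ξ) :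
    (fun n => x n * y n) ∈ AppS M ξ := by
  refine ⟨AppR_mul hx.1 hy.1, ?_⟩
  have := AppR_mul hy.2 hx.2
  simpa only [star_mul] using this

theorem AppS_star {x : ℕ → H →L[ℂ] H} (hx : x ∈ AppS M ξ) :
    (fun n => star (x n)) ∈ AppS M ξ := by
  refine ⟨hx.2, ?_⟩
  simpa only [star_star] using hx.1

theorem AppS_add {x y : ℕ → H →L[ℂ] H} (hx : x ∈ AppS M ξ) (hy : y ∈ AppS M ξ) :
    (fun n => x n + y n) ∈ AppS M ξ := by
  refine ⟨AppR_add hx.1 hy.1, ?_⟩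
  have := AppR_add hx.2 hy.2
  simpa only [star_add] using this

theorem AppS_scalar {c : ℕ → ℂ} (hc : Bdd c) :
    (fun n => c n • (1 : H →L[ℂ] H)) ∈ AppS M ξ := by
  refine ⟨AppR_scalar hc, ?_⟩
  have hc' : Bdd (fun n => star (c n)) := by
    obtain ⟨C, hC⟩ := hc
    exact ⟨C, fun n => by rw [norm_star]; exact hC n⟩
  have := AppR_scalar (M := M) (ξ := ξ) hc'
  simpa only [star_smul, star_one] using this

theorem LamSeq.lamU {l : ℝ} {a : ℕ → H →L[ℂ] H} (h : LamSeq N ξ l a) : LamU N ξ l a := by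
  refine ⟨h.1, h.2.1, fun ε hε => ?_⟩
  have h1 := h.2.2 ε hε
  rw [← Nat.cofinite_eq_atTop] at h1
  exact Filter.hyperfilter_le_cofinite h1

theorem LamSeq.subseq {l : ℝ} {a : ℕ → H →L[ℂ] H} (h : LamSeq N ξ l a) {φ : ℕ → ℕ}
    (hφ : StrictMono φ) : LamSeq N ξ l (fun n => a (φ n)) :=
  ⟨fun n => h.1 _, ⟨h.2.1.choose, fun n => h.2.1.choose_spec _⟩, fun ε hε =>
    hφ.tendsto_atTop.eventually (h.2.2 ε hε)⟩

theorem UU_le_atTop : (UU : Filter ℕ) ≤ atTop := by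
  rw [← Nat.cofinite_eq_atTop]
  exact Filter.hyperfilter_le_cofinite

namespace Oc

variable {MT NT : VonNeumannAlgebra K} {ET : (K →L[ℂ] K) → (K →L[ℂ] K)} {ζ : K}
  {rep : (ℕ → H →L[ℂ] H) → (K →L[ℂ] K)} (O : Oc M N E ξ MT NT ET ζ rep)
include O

theorem inner_one {x : ℕ → H →L[ℂ] H} (hx : x ∈ AppS M ξ) :
    Tendsto (fun n => ⟪ξ, x n ξ⟫_ℂ) (UU : Filter ℕ) (𝓝 ⟪ζ, rep x ζ⟫_ℂ) := by
  have h := O.inner _ AppS_one x hx
  rw [O.one] at h
  exact h

/-- U9a -/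
theorem eig_of_lamU (S : Setting M N E ξ) {l : ℝ} (hl : 0 < l) {a : ℕ → H →L[ℂ] H}
    (ha : LamU N ξ l a) : rep a ∈ eig NT ζ l := by
  have haS := S.lamU_appS hl ha
  refine ⟨O.memN a haS ha.1, fun X hX => ?_⟩
  obtain ⟨x, hxS, hxN, hxb, rfl⟩ := O.surjN X hX
  have h1 := O.inner_one (AppS_mul hxS haS)
  have h2 := (O.inner_one (AppS_mul haS hxS)).const_mul (l : ℂ)
  rw [O.mul x hxS a haS] at h1
  rw [O.mul a haS x hxS] at h2
  have h3 : Tendsto (fun n => ⟪ξ, (x n * a n) ξ⟫_ℂ - (l : ℂ) * ⟪ξ, (a n * x n) ξ⟫_ℂ)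
      (UU : Filter ℕ) (𝓝 0) := by
    rw [tendsto_zero_iff_norm_tendsto_zero, Metric.tendsto_nhds]
    intro ε hε
    have hC : 0 ≤ 2 * ‖rep x‖ := by positivity
    filter_upwards [ha.2.2 (ε / (2 * ‖rep x‖ + 1)) (by positivity)] with n hn
    rw [Real.dist_eq, sub_zero, abs_of_nonneg (norm_nonneg _)]
    refine lt_of_le_of_lt (hn (x n) (hxN n)) ?_
    calc ε / (2 * ‖rep x‖ + 1) * ‖x n‖ ≤ ε / (2 * ‖rep x‖ + 1) * (2 * ‖rep x‖) := by
          gcongr; exact hxb n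
      _ < ε / (2 * ‖rep x‖ + 1) * (2 * ‖rep x‖ + 1) := by
          apply mul_lt_mul_of_pos_left _ (by positivity)
          linarith
      _ = ε := by field_simp
  have h4 := tendsto_nhds_unique (h1.sub h2) h3
  exact sub_eq_zero.1 h4

/-- U9c -/
theorem mem_Gam (S : Setting M N E ξ)
    (NN : ∀ l : ℝ, 0 < l → ∃ a, LamSeq N ξ l a ∧ ¬ Tendsto (fun n => a n ξ) atTop (𝓝 0))
    {l : ℝ} (hl : 0 < l) : l ∈ Gam NT ζ := by
  obtain ⟨a, ha, hna⟩ := NN l hl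
  rw [Metric.tendsto_atTop] at hna
  push Not at hna
  obtain ⟨ε, hε, hfr⟩ := hna
  have hfr' : ∃ᶠ n in atTop, ε ≤ ‖a n ξ‖ := by
    rw [Filter.frequently_atTop]
    intro m
    obtain ⟨n, hn, h⟩ := hfr m
    exact ⟨n, hn, by simpa [dist_zero_right] using h⟩
  obtain ⟨φ, hφ, hφ'⟩ := Filter.extraction_of_frequently_atTop hfr'
  have hb := (ha.subseq hφ).lamU
  refine ⟨hl, rep (fun n => a (φ n)), O.eig_of_lamU S hl hb, ?_⟩
  intro h0
  have hbS := S.lamU_appS hl hb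
  have h1 := O.inner _ hbS _ hbS
  rw [h0, zero_apply, inner_zero_left] at h1
  have h2 : ∀ n, ε ^ 2 ≤ ‖⟪a (φ n) ξ, a (φ n) ξ⟫_ℂ‖ := by
    intro n
    rw [inner_self_eq_norm_sq_to_K]
    have : ‖((‖a (φ n) ξ‖ : ℂ)) ^ 2‖ = ‖a (φ n) ξ‖ ^ 2 := by
      rw [norm_pow, Complex.norm_real, norm_norm]
    refine le_trans ?_ (le_of_eq this.symm)
    exact pow_le_pow_left₀ hε.le (hφ' n) 2
  have h3 := h1.norm
  rw [norm_zero] at h3
  have h4 := ge_of_tendsto' h3 h2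
  have : 0 < ε ^ 2 := by positivity
  linarith

/-- scalar sequences -/
theorem rep_scalar (S : Setting M N E ξ) {c : ℕ → ℂ} (hc : Bdd c) :
    ∃ c' : ℂ, rep (fun n => c n • (1 : H →L[ℂ] H)) = c' • 1 := by
  obtain ⟨C, hC⟩ := hc
  have hcomp : IsCompact (Metric.closedBall (0 : ℂ) C) := isCompact_closedBall 0 C
  obtain ⟨c', -, hc'⟩ := hcomp.ultrafilter_le_nhds (UU.map c) (by
    rw [Filter.le_principal_iff]
    exact Filter.mem_map.2 (Filter.univ_mem' fun n => by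
      rw [Set.mem_preimage, Metric.mem_closedBall, dist_zero_right]; exact hC n))
  have hlim : Tendsto c (UU : Filter ℕ) (𝓝 c') := hc'
  refine ⟨c', ?_⟩
  have hz : Bdd (fun n => c n - c') := ⟨C + ‖c'‖, fun n => (norm_sub_le _ _).trans (by
    have := hC n; linarith)⟩
  have hzS : (fun n => (c n - c') • (1 : H →L[ℂ] H)) ∈ AppS M ξ := AppS_scalar hz
  have h1 := O.inner _ hzS _ hzS
  have h2 : Tendsto (fun n => ⟪((c n - c') • (1 : H →L[ℂ] H)) ξ,
      ((c n - c') • (1 : H →L[ℂ] H)) ξ⟫_ℂ) (UU : Filter ℕ) (𝓝 0) := by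
    have h3 : Tendsto (fun n => ((c n - c') • (1 : H →L[ℂ] H)) ξ) (UU : Filter ℕ) (𝓝 0) := by
      have h4 : Tendsto (fun n => c n - c') (UU : Filter ℕ) (𝓝 0) := by
        have := hlim.sub_const c'
        rwa [sub_self] at this
      have h5 := h4.smul_const ξ
      rw [zero_smul] at h5
      exact h5
    have h6 := Filter.Tendsto.inner (𝕜 := ℂ) h3 h3
    rwa [inner_zero_left] at h6
  have h3 := tendsto_nhds_unique h1 h2
  have h4 : rep (fun n => (c n - c') • (1 : H →L[ℂ] H)) ζ = 0 := inner_self_eq_zero.1 h3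
  have h5 := O.set.sep _ (O.memM _ hzS) h4
  have h6 : (fun n => c n • (1 : H →L[ℂ] H)) =
      fun n => (c n - c') • (1 : H →L[ℂ] H) + (fun _ : ℕ => c' • (1 : H →L[ℂ] H)) n := by
    funext n
    rw [← add_smul, sub_add_cancel]
  have h7 : (fun _ : ℕ => c' • (1 : H →L[ℂ] H)) ∈ AppS M ξ :=
    AppS_scalar (c := fun _ => c') ⟨‖c'‖, fun _ => le_rfl⟩
  rw [h6, O.add _ hzS _ h7, h5, zero_add, O.smul c' _ AppS_one, O.one]

/-- U9b -/
theorem ap (S : Setting M N E ξ) (TB : ∀ x ∈ Bicent N N ξ, ∃ c : ℂ, x = c • 1)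
    (NN : ∀ l : ℝ, 0 < l → ∃ a, LamSeq N ξ l a ∧ ¬ Tendsto (fun n => a n ξ) atTop (𝓝 0)) :
    AP MT NT ET ζ where
  toSetting := O.set
  dns := by
    intro a b ha hab
    exact ⟨(a + b) / 2, O.mem_Gam S NN (by linarith), by linarith, by linarith⟩
  irr := by
    intro X hX hcomm
    obtain ⟨x, hxS, hxN, hxb, hXx⟩ := O.surjN X hX
    set c : ℕ → ℂ := fun n => -⟪ξ, x n ξ⟫_ℂ with hc
    have hcb : Bdd c := by
      refine ⟨2 * ‖X‖, fun n => ?_⟩
      simp only [hc, norm_neg]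
      calc ‖⟪ξ, x n ξ⟫_ℂ‖ ≤ ‖ξ‖ * ‖x n ξ‖ := norm_inner_le_norm _ _
        _ ≤ ‖ξ‖ * (‖x n‖ * ‖ξ‖) := by gcongr; exact le_opNorm _ _
        _ = ‖x n‖ := by rw [S.norm_one]; ring
        _ ≤ _ := hxb n
    obtain ⟨c', hc'⟩ := O.rep_scalar S hcb
    have hcS : (fun n => c n • (1 : H →L[ℂ] H)) ∈ AppS M ξ := AppS_scalar hcb
    set y : ℕ → H →L[ℂ] H := fun n => x n + c n • (1 : H →L[ℂ] H) with hy
    have hyS : y ∈ AppS M ξ := AppS_add hxS hcS
    have hyN : ∀ n, y n ∈ N := fun n => add_mem (hxN n) (smul_mem' _ (one_mem N))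
    have hyX : rep y = X + c' • 1 := by
      rw [hy, O.add x hxS _ hcS, ← hXx, hc']
    have hy0 : ∀ n, ⟪ξ, y n ξ⟫_ℂ = 0 := by
      intro n
      simp only [hy, hc, add_apply, inner_add_right]
      have : ((-⟪ξ, x n ξ⟫_ℂ) • (1 : H →L[ℂ] H)) ξ = (-⟪ξ, x n ξ⟫_ℂ) • ξ := rfl
      rw [this, inner_smul_right, S.inner_self]
      ring
    have hex : ∀ n : ℕ, ∃ u ∈ N, Star.star u * u = 1 ∧ u * Star.star u = 1 ∧
        Defect N ξ 1 (1 / ((n : ℝ) + 1)) u ∧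
        (⟪y n ξ, (Star.star u * y n * u) ξ⟫_ℂ).re < 1 / ((n : ℝ) + 1) := by
      intro n
      by_contra hcon
      push Not at hcon
      have hpos : (0 : ℝ) < 1 / ((n : ℝ) + 1) := by positivity
      have := S.avgA TB (hyN n) (y n ξ) ξ hpos (c := 1 / ((n : ℝ) + 1))
        (fun u hu h1 h2 h3 => hcon u hu h1 h2 h3)
      rw [hy0 n, zero_mul, Complex.zero_re] at this
      linarith
    choose u huN hu1 hu2 huD hure using hex
    have huL : LamU N ξ 1 u := by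
      refine ⟨huN, ⟨1, fun n => norm_le_one_of_isom (hu1 n)⟩, fun ε hε => ?_⟩
      have h1 : ∀ᶠ n : ℕ in atTop, 1 / ((n : ℝ) + 1) < ε :=
        (tendsto_one_div_add_atTop_nhds_zero_nat (𝕜 := ℝ)).eventually (gt_mem_nhds hε)
      exact (h1.filter_mono UU_le_atTop).mono fun n hn => (huD n).mono hn.le
    have huS := S.lamU_appS one_pos huL
    have hU := O.eig_of_lamU S one_pos huL
    have hUX := hcomm _ hU
    have hUY : rep u * rep y = rep y * rep u := by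
      rw [hyX, mul_add, add_mul, hUX, mul_smul_comm, smul_mul_assoc, mul_one, one_mul]
    have hUU : Star.star (rep u) * rep u = 1 := by
      rw [← O.star u huS, ← O.mul _ (AppS_star huS) _ huS]
      simp only [hu1]
      exact O.one
    -- the limit
    have h1 := O.inner y hyS _ (AppS_mul (AppS_mul (AppS_star huS) hyS) huS)
    rw [O.mul _ (AppS_mul (AppS_star huS) hyS) _ huS, O.mul _ (AppS_star huS) _ hyS,
      O.star u huS] at h1
    have h2 : Star.star (rep u) * rep y * rep u = rep y := by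
      rw [mul_assoc, ← hUY, ← mul_assoc, hUU, one_mul]
    rw [h2] at h1
    have h3 := (Complex.continuous_re.tendsto _).comp h1
    have h4 : Tendsto (fun n : ℕ => 1 / ((n : ℝ) + 1)) (UU : Filter ℕ) (𝓝 0) :=
      (tendsto_one_div_add_atTop_nhds_zero_nat (𝕜 := ℝ)).mono_left UU_le_atTop
    have h5 : (⟪rep y ζ, rep y ζ⟫_ℂ).re ≤ 0 :=
      le_of_tendsto_of_tendsto' h3 h4 fun n => (hure n).le
    have h6 : rep y ζ = 0 := by
      have h7 : 0 ≤ (⟪rep y ζ, rep y ζ⟫_ℂ).re := inner_self_nonneg (𝕜 := ℂ)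
      have h8 : (⟪rep y ζ, rep y ζ⟫_ℂ).re = ‖rep y ζ‖ ^ 2 := by
        rw [inner_self_eq_norm_sq_to_K]
        norm_cast
      have h9 : ‖rep y ζ‖ ^ 2 = 0 := by rw [← h8]; exact le_antisymm h5 h7
      exact norm_eq_zero.1 (pow_eq_zero_iff (two_ne_zero) |>.1 h9)
    have h7 := O.set.sep _ (O.memM _ hyS) h6
    refine ⟨-c', ?_⟩
    rw [hyX] at h7
    rw [neg_smul]
    exact eq_neg_of_add_eq_zero_left h7

end Oc

end Pool.Agent.Helper23
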